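import Pool.Agent.Lib.MP_e6fef2_lc.Chain

/-!
# PEL: the limit is a proper extension
-/

universe u

open Cardinal Filter

namespace Pool.Agent.Lib.MP_e6fef2_lc.H60

open Pool.Agent.Lib.MP_100a6c_lc
open Pool.Agent.Lib.MP_c5d73d_lc.F (pr)

theorem prj_mono {A C : Type u} [CompleteBooleanAlgebra A] [CompleteBooleanAlgebra C] (f : A → C)
    {c d : C} (h : c ≤ d) : prj f c ≤ prj f d :=
  sInf_le_sInf fun _ ha => h.trans ha

theorem pel (h1 : ClubStatement.{u}) (h2 : FusStatement.{u}) : PelStatement.{u} := by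
  intro L _ A _ f C _ e hch htop htp hdp hpe i
  obtain ⟨-, -, -, hconst, -⟩ := h1
  filter_upwards [h2 L A f C e hch htop htp hdp hpe, hconst L i] with N hN hi c hc
  have hFC : FC A f N (fun _ => Set.univ) :=
    ⟨fun _ _ _ => trivial, fun _ _ _ => trivial, fun _ _ _ _ => trivial,
      fun _ _ _ _ _ => trivial⟩
  obtain ⟨j, q, -, -, -, h3, h4⟩ := hN (fun _ => Set.univ) hFC i hi c hc
    (gen (A i) N ⊓ prj (e i) c) trivial le_rfl
  rw [← h3]
  exact prj_mono _ h4

end Pool.Agent.Lib.MP_e6fef2_lc.H60
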