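import Pool.Agent.Lib.MP_e6fef2_lc.Chain
import Pool.Agent.Lib.MP_c5d73d_lc.F.H62.Roapi

/-!
# TOP0: the first algebra `RO S`
-/

universe u

open Cardinal Filter

namespace Pool.Agent.Lib.MP_e6fef2_lc.H60

open Pool.Agent.Lib.MP_100a6c_lc
open Pool.Agent.Lib.MP_c5d73d_lc.F (pr)

theorem ro_dense {S : Type u} [Preorder S] (a : H1.RO S) (ha : a ≠ ⊥) : ∃ s : S, pr s ≤ a := by
  obtain ⟨p, hp⟩ := H1.exists_mem_of_ne_bot ha
  exact ⟨p, (Pool.Agent.Lib.MP_c5d73d_lc.F.H62.pr_le_iff p a).2 hp⟩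

theorem isCE_id (A : Type u) [CompleteBooleanAlgebra A] : IsCE (fun x : A => x) :=
  ⟨fun _ _ h => h, fun _ => rfl, fun s => sSup_eq_iSup⟩

theorem prj_id {A : Type u} [CompleteBooleanAlgebra A] (c : A) : prj (fun x : A => x) c = c :=
  le_antisymm (sInf_le le_rfl) (le_sInf fun _ ha => ha)

theorem pe_id (A : Type u) [CompleteBooleanAlgebra A] : PE (fun x : A => x) := by
  unfold PE
  refine Filter.Eventually.of_forall fun N c _ => ?_
  rw [prj_id, prj_id]

theorem sigC_pair (A : Type u) [CompleteBooleanAlgebra A] : SigC ({⊤, ⊥} : Set A) := by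
  refine ⟨Or.inl rfl, ?_, ?_⟩
  · rintro x (rfl | rfl)
    · exact Or.inr compl_top
    · exact Or.inl compl_bot
  · intro x hx
    by_cases h : ∃ n, x n = ⊤
    · obtain ⟨n, hn⟩ := h
      left
      exact top_le_iff.1 (hn ▸ le_iSup x n)
    · right
      push Not at h
      have : ∀ n, x n = ⊥ := fun n => (hx n).resolve_left (h n)
      simp [this]

theorem top0 (h1 : SizeStatement.{u}) : Top0Statement.{u} := by
  intro κ I _ _ hI S _ hKC hS L _ _ A _ f ι M
  have hdm : DM (fun x : H1.RO S => x) {⊤, ⊥} := by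
    intro a ha
    obtain ⟨s, hs⟩ := ro_dense a ha
    refine ⟨s, ⊤, Or.inl rfl, ?_, ?_⟩
    · rw [inf_top_eq]
      exact Pool.Agent.Lib.MP_c5d73d_lc.F.H62.pr_ne_bot s
    · rw [inf_top_eq]
      exact hs
  have hcard : #(({⊤, ⊥} : Set (H1.RO S))) < κ :=
    lt_of_lt_of_le (Cardinal.lt_aleph0_iff_finite.2 (Set.toFinite _).to_subtype) hI.unc.le
  refine ⟨⟨fun i => isEmptyElim i, fun i => isEmptyElim i⟩, isCE_id _, fun i => isEmptyElim i,
    fun i => isEmptyElim i, pe_id _, ?_, ?_, sigC_pair _, fun i => isEmptyElim i, hcard, hdm,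
    (h1 κ I hI S hKC hS (H1.RO S) (fun x => x) {⊤, ⊥} (isCE_id _) hdm hcard).2⟩
  · intro i
    exact (IsEmpty.false (i 0)).elim
  · intro h
    exact (IsEmpty.false h.some).elim

end Pool.Agent.Lib.MP_e6fef2_lc.H60
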