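import Pool.Agent.Lib.MP_e6fef2_lc.H60.Top0

/-!
# TOPL: the next algebra at limits
-/

universe u

open Cardinal Filter

namespace Pool.Agent.Lib.MP_e6fef2_lc.H60

open Pool.Agent.Lib.MP_100a6c_lc
open Pool.Agent.Lib.MP_c5d73d_lc.F (pr)

/-- the union of a small family of small sets is small -/
theorem small_union {κ : Cardinal.{u}} (hκ : κ.IsRegular) {L X : Type u} (hL : #L < κ)
    (s : L → Set X) (hs : ∀ i, #(s i) < κ) : #(⋃ i, s i : Set X) < κ := by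
  refine lt_of_le_of_lt (Cardinal.mk_iUnion_le_sum_mk) ?_
  exact Cardinal.sum_lt_of_isRegular hκ hL hs

theorem topl (hPec : PecStatement.{u}) (hAlg2 : Alg2Statement.{u}) (hLimc : LimcStatement.{u})
    (hPel : PelStatement.{u}) (hRdm : RdmStatement.{u}) (hIdx : IdxStatement.{u})
    (hSize : SizeStatement.{u}) : ToplStatement.{u} := by
  intro κ I _ _ hI S _ hSGC hKC hS L _ _ _ hL A _ f ι M hG
  obtain ⟨-, hTop, hTP, hDP⟩ := hLimc L A f hG.ch hG.tp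
  obtain ⟨i0⟩ := ‹Nonempty L›
  set e : ∀ i, A i → H1.RO (Thr A f) := fun i a => thE i a with he
  have hpel : ∀ i, PE (e i) := hPel L A f _ e hG.ch hTop hTP hDP hG.pe
  have hcomm : ∀ i j x, e i (ι i x) = e j (ι j x) := by
    have key : ∀ i j, i ≤ j → ∀ x, e i (ι i x) = e j (ι j x) := by
      intro i j hij x
      rw [← hG.ιcomp i j hij x, hTop.comp i j hij]
    intro i j x
    rcases le_total i j with h | h
    · exact key i j h x
    · exact (key j i h x).symm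
  have hιC : IsCE (fun x => e i0 (ι i0 x)) := (hAlg2 _ _ _ (ι i0) (e i0) (hG.ιce i0) (hTop.ce i0)).1
  have hιP : PE (fun x => e i0 (ι i0 x)) :=
    (hPec _ _ _ (ι i0) (e i0) (hG.ιce i0) (hTop.ce i0)).1 (hG.ιpe i0) (hpel i0)
  obtain ⟨-, hI2, -, -, hI5⟩ := hIdx
  obtain ⟨-, hpow, -⟩ := hI2 κ I hI
  have hX : #(⋃ i, (e i '' M i) : Set (H1.RO (Thr A f))) < κ :=
    small_union hI.reg hL _ fun i => lt_of_le_of_lt Cardinal.mk_image_le (hG.Mcard i)
  obtain ⟨MC, hMC1, hMC2, hMC3⟩ := hI5 κ _ _ hpow hI.unc hX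
  have hmap : ∀ i, ∀ m ∈ M i, e i m ∈ MC := fun i m hm =>
    hMC2 (Set.mem_iUnion.2 ⟨i, Set.mem_image_of_mem _ hm⟩)
  have hdm : DM (fun x => e i0 (ι i0 x)) MC :=
    hRdm S hSGC L A f _ e ι M hG.ch hTop hTP hDP hG.pe hG.ιce hG.ιpe hG.ιcomp hG.sig hG.Mdm
      hG.Mmap MC hMC1 hmap i0
  refine ⟨H1.RO (Thr A f), inferInstance, e, fun x => e i0 (ι i0 x), MC, ?_⟩
  exact ⟨hTop, hιC, fun i x => hcomm i i0 x, hpel, hιP, hTP, fun _ _ => hDP, hMC1, hmap, hMC3,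
    hdm, (hSize κ I hI S hKC hS _ _ MC hιC hdm hMC3).2⟩

end Pool.Agent.Lib.MP_e6fef2_lc.H60
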