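import Pool.Agent.Lib.MP_e6fef2_lc.Chain

/-!
# TOPT: the trivial extension at successors
-/

universe u

open Cardinal Filter

namespace Pool.Agent.Lib.MP_e6fef2_lc.H60

open Pool.Agent.Lib.MP_100a6c_lc
open Pool.Agent.Lib.MP_c5d73d_lc.F (pr)

theorem topt : ToptStatement.{u} := by
  intro κ S _ L _ A _ f ι M hG m hm
  refine ⟨⟨fun i => hG.ch.ce i m (hm i), fun i j hij a => hG.ch.comp i j m hij (hm j) a⟩,
    hG.ιce m, fun i x => hG.ιcomp i m (hm i) x, fun i => hG.pe i m (hm i), hG.ιpe m, ?_, ?_,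
    hG.sig m, fun i => hG.Mmap i m (hm i), hG.Mcard m, hG.Mdm m, hG.card m⟩
  · intro i hi q hq
    exact hG.tp m i hi (fun n => hm _) q hq
  · intro _ hmax
    obtain ⟨b, hb⟩ := exists_gt m
    exact absurd (hm b) (not_le.2 hb)

end Pool.Agent.Lib.MP_e6fef2_lc.H60
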