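import Pool.Agent.Lib.MP_e6fef2_lc.H60.Topl

/-!
# TOPS: the next algebra at successors
-/

universe u

open Cardinal Filter

namespace Pool.Agent.Lib.MP_e6fef2_lc.H60

open Pool.Agent.Lib.MP_100a6c_lc
open Pool.Agent.Lib.MP_c5d73d_lc.F (pr)

theorem sigC_inf {A : Type u} [CompleteBooleanAlgebra A] {M : Set A} (h : SigC M) {x y : A}
    (hx : x ∈ M) (hy : y ∈ M) : x ⊓ y ∈ M := by
  have h1 : ⨆ n : ℕ, (if n = 0 then xᶜ else yᶜ) ∈ M := by
    apply h.sup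
    intro n
    split_ifs
    · exact h.compl x hx
    · exact h.compl y hy
  have h2 : ⨆ n : ℕ, (if n = 0 then xᶜ else yᶜ) = xᶜ ⊔ yᶜ := by
    apply le_antisymm
    · apply iSup_le
      intro n
      split_ifs
      · exact le_sup_left
      · exact le_sup_right
    · apply sup_le
      · exact le_trans (by simp) (le_iSup (fun n : ℕ => if n = 0 then xᶜ else yᶜ) 0)
      · exact le_trans (by simp) (le_iSup (fun n : ℕ => if n = 0 then xᶜ else yᶜ) 1)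
  rw [h2] at h1
  have h3 := h.compl _ h1
  rwa [compl_sup, compl_compl, compl_compl] at h3

theorem tops (hAlg : AlgStatement.{u}) (hAlg2 : Alg2Statement.{u}) (hPec : PecStatement.{u})
    (hTw : Tw1Statement.{u}) (hIdx : IdxStatement.{u}) (hSize : SizeStatement.{u}) :
    TopsStatement.{u} := by
  intro κ I _ _ hI S _ hKC hS L _ A _ f ι M hG m hm Q hQ
  obtain ⟨-, hI2, -, -, hI5⟩ := hIdx
  obtain ⟨-, hpow, -, hWκ, -⟩ := hI2 κ I hI
  have hWne : Nonempty W.{u} := by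
    rw [← Cardinal.mk_ne_zero_iff, Cardinal.mk_ord_toType]
    exact (Cardinal.aleph_pos 1).ne'
  obtain ⟨hce, hle, hpr, hprj, -, -⟩ := hTw (A m) W.{u} Q
  -- the small set
  have hX : #((twE Q '' M m) ∪ Set.range (twG Q) : Set (TwS Q)) < κ := by
    refine lt_of_le_of_lt (Cardinal.mk_union_le _ _) ?_
    refine Cardinal.add_lt_of_lt hI.reg.aleph0_le ?_ ?_
    · exact lt_of_le_of_lt Cardinal.mk_image_le (hG.Mcard m)
    · exact lt_of_le_of_lt Cardinal.mk_range_le hWκ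
  obtain ⟨MC, hMC1, hMC2, hMC3⟩ := hI5 κ _ _ hpow hI.unc hX
  have hιC : IsCE (fun x => twE Q (ι m x)) := (hAlg2 _ _ _ (ι m) (twE Q) (hG.ιce m) hce).1
  obtain ⟨-, -, hinf, -, hmono, -⟩ := hAlg _ _ (twE Q) hce
  have hmono' : ∀ a b, a ≤ b → twE Q a ≤ twE Q b := fun a b h => (hmono a b).2 h
  have hdm : DM (fun x => twE Q (ι m x)) MC := by
    intro a ha
    obtain ⟨p, hp⟩ := ro_dense a ha
    obtain ⟨s, x, hx, h1, h2⟩ := hG.Mdm m p.b p.ne
    let p' : Tw Q := ⟨ι m (pr s) ⊓ x, p.x, h1⟩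
    have hp' : (pr p' : TwS Q) ≤ pr p := by
      apply Pool.Agent.Lib.MP_c5d73d_lc.F.H62.pr_mono
      refine ⟨h2, ?_⟩
      show p'.b ≤ Q.le p.x p.x
      rw [Q.refl]
      exact le_top
    have heq : (pr p' : TwS Q) = twE Q (ι m (pr s)) ⊓ (twE Q x ⊓ twG Q p.x) := by
      rw [hpr p']
      show twE Q (ι m (pr s) ⊓ x) ⊓ twG Q p.x = _
      rw [hinf]
      exact inf_assoc _ _ _
    refine ⟨s, twE Q x ⊓ twG Q p.x, ?_, ?_, ?_⟩
    · exact sigC_inf hMC1 (hMC2 (Or.inl (Set.mem_image_of_mem _ hx)))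
        (hMC2 (Or.inr (Set.mem_range_self _)))
    · show twE Q (ι m (pr s)) ⊓ (twE Q x ⊓ twG Q p.x) ≠ ⊥
      rw [← heq]
      exact Pool.Agent.Lib.MP_c5d73d_lc.F.H62.pr_ne_bot p'
    · show twE Q (ι m (pr s)) ⊓ (twE Q x ⊓ twG Q p.x) ≤ a
      rw [← heq]
      exact hp'.trans hp
  refine ⟨MC, ⟨?_, ?_⟩, hιC, ?_, ?_, ?_, ?_, ?_, hMC1, ?_, hMC3, hdm,
    (hSize κ I hI S hKC hS _ _ MC hιC hdm hMC3).2⟩
  · intro i
    exact (hAlg2 _ _ _ (f i m) (twE Q) (hG.ch.ce i m (hm i)) hce).1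
  · intro i j hij a
    show twE Q (f j m (f i j a)) = twE Q (f i m a)
    rw [hG.ch.comp i j m hij (hm j)]
  · intro i x
    show twE Q (f i m (ι i x)) = twE Q (ι m x)
    rw [hG.ιcomp i m (hm i)]
  · intro i
    exact (hPec _ _ _ (f i m) (twE Q) (hG.ch.ce i m (hm i)) hce).1 (hG.pe i m (hm i)) hQ
  · exact (hPec _ _ _ (ι m) (twE Q) (hG.ιce m) hce).1 (hG.ιpe m) hQ
  · intro i hi q hq
    have hcomp := (hAlg2 _ _ _ (f (i 0) m) (twE Q) (hG.ch.ce (i 0) m (hm _)) hce).2.1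
    obtain ⟨-, -, -, -, -, -, -, -, hinfN, -, -, hprj2, -⟩ := hAlg _ _ (twE Q) hce
    have h1 : ⨅ n, twE Q (f (i n) m (q n)) = twE Q (⨅ n, f (i n) m (q n)) :=
      (hinfN _).symm
    show prj (fun a => twE Q (f (i 0) m a)) (⨅ n, twE Q (f (i n) m (q n))) = q 0
    rw [h1, hcomp, hprj2]
    exact hG.tp m i hi (fun n => hm _) q hq
  · intro _ hmax
    obtain ⟨b, hb⟩ := exists_gt m
    exact absurd (hm b) (not_le.2 hb)
  · intro i x hx
    exact hMC2 (Or.inl (Set.mem_image_of_mem _ (hG.Mmap i m (hm i) x hx)))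

end Pool.Agent.Lib.MP_e6fef2_lc.H60
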